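import Mathlib
import Pool.Agent.H147R3.PE.W2
set_option autoImplicit false

/-! Summation of the levels: the strong weighted mixed norm estimate for anisotropic dilates. -/

namespace Pool.Agent.Q162.PE

open MeasureTheory Set Complex
open scoped ENNReal
open Pool.Agent.H147R3.PE

lemma vol_piece {f : ℝ × ℝ → ℂ} (hf : S2 f) (s : ℝ) (hs : 0 < s) (q : ℝ) (hq : 0 < q)
    (hN : ∫⁻ x, ‖f x‖ₑ ^ q ≤ ENNReal.ofReal (s ^ q)) (k : ℕ) :
    volume (EE f s k) ≤ ENNReal.ofReal (4 * 2 ^ q * ((2 : ℝ) ^ k) ^ (-q)) := by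
  have h2q : (1 : ℝ) ≤ 2 ^ q := Real.one_le_rpow (by norm_num) hq.le
  cases k with
  | zero =>
    refine (EE_vol0 f s 0).trans ?_
    have : (4 : ℝ≥0∞) = ENNReal.ofReal 4 := by norm_num
    rw [this]
    apply ENNReal.ofReal_le_ofReal
    simp
    linarith
  | succ k =>
    refine (EE_vol hf s hs q hq hN k).trans ?_
    apply ENNReal.ofReal_le_ofReal
    have h1 : ((2 : ℝ) ^ (k + 1)) ^ (-q) = ((2 : ℝ) ^ k) ^ (-q) * (2 ^ q)⁻¹ := by
      rw [pow_succ, Real.mul_rpow (by positivity) (by norm_num), Real.rpow_neg (by norm_num : (0:ℝ) ≤ 2)]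
    rw [h1]
    have h3 : 0 < ((2 : ℝ) ^ k) ^ (-q) := by positivity
    have h4 : (4 : ℝ) * 2 ^ q * (((2 : ℝ) ^ k) ^ (-q) * (2 ^ q)⁻¹) = 4 * ((2 : ℝ) ^ k) ^ (-q) := by
      have : (2 : ℝ) ^ q ≠ 0 := by positivity
      field_simp
    rw [h4]
    linarith

lemma wt_meas3 (γ : ℝ) : Measurable fun ξ : ℝ × ℝ × ℝ => wt γ ξ.2.2 :=
  (wt_meas γ).comp (measurable_snd.comp measurable_snd)

/-- the weighted moment of the extension of a dilate -/
noncomputable def JJ (γ q : ℝ) (f : ℝ × ℝ → ℂ) (l : ℝ) : ℝ≥0∞ :=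
  ∫⁻ ξ : ℝ × ℝ × ℝ, wt γ ξ.2.2 * ‖ext (dil l f) ξ‖ₑ ^ q

lemma JJ_meas (γ q : ℝ) {f : ℝ × ℝ → ℂ} (hf : Measurable f) : Measurable (JJ γ q f) := by
  unfold JJ
  apply Measurable.lintegral_prod_right'
    (f := fun r : ℝ × (ℝ × ℝ × ℝ) => wt γ r.2.2.2 * ‖ext (dil r.1 f) r.2‖ₑ ^ q)
  exact ((wt_meas3 γ).comp measurable_snd).mul ((ext_meas hf).enorm.pow_const q)

lemma geo_ne (ρ : ℝ) (h0 : 0 < ρ) (h1 : ρ < 1) : ∑' k : ℕ, ENNReal.ofReal (ρ ^ k) ≠ ⊤ := by
  have h := (summable_geometric_of_lt_one h0.le h1)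
  rw [← ENNReal.ofReal_tsum_of_nonneg (fun k => by positivity) h]
  exact ENNReal.ofReal_ne_top

lemma JJ_split (γ q ρ : ℝ) (hq : 1 < q) (hρ0 : 0 < ρ) {f : ℝ × ℝ → ℂ} (hf : S2 f)
    (hint : ∫⁻ x, ‖f x‖ₑ ≠ ⊤) (s : ℝ) (hs : 0 < s) (l : ℝ) (hl : 1 ≤ l) :
    JJ γ q f l ≤ (∑' k : ℕ, ENNReal.ofReal (ρ ^ k)) ^ (q - 1) *
      ∑' k : ℕ, ENNReal.ofReal ((ρ ^ k) ^ (-(q - 1))) * JJ γ q (pc f s k) l := by
  set R := (∑' k : ℕ, ENNReal.ofReal (ρ ^ k)) ^ (q - 1) with hR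
  have hm : ∀ k, Measurable fun ξ : ℝ × ℝ × ℝ => ‖ext (dil l (pc f s k)) ξ‖ₑ := fun k =>
    (ext_meas1 (pc_BS2 hf s hs k).meas l).enorm
  calc JJ γ q f l ≤ ∫⁻ ξ : ℝ × ℝ × ℝ, R * ∑' k : ℕ, (ENNReal.ofReal ((ρ ^ k) ^ (-(q - 1))) *
        (wt γ ξ.2.2 * ‖ext (dil l (pc f s k)) ξ‖ₑ ^ q)) := by
        unfold JJ
        apply lintegral_mono
        intro ξ
        simp only
        have h1 := ENNReal.rpow_le_rpow (ext_sum hf hint s hs l hl ξ) (by linarith : 0 ≤ q)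
        have h2 := h1.trans (wsum (fun k => ‖ext (dil l (pc f s k)) ξ‖ₑ) ρ hρ0 q hq)
        refine (mul_le_mul' le_rfl h2).trans (le_of_eq ?_)
        rw [← ENNReal.tsum_mul_left, ← ENNReal.tsum_mul_left, ← ENNReal.tsum_mul_left]
        congr 1
        funext k
        rw [← hR]
        ring
    _ = _ := by
        rw [lintegral_const_mul]
        · congr 1
          rw [lintegral_tsum]
          · congr 1
            funext k
            rw [lintegral_const_mul]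
            · rfl
            · exact (wt_meas3 γ).mul ((hm k).pow_const q)
          · intro k
            exact (((wt_meas3 γ).mul ((hm k).pow_const q)).const_mul _).aemeasurable
        · apply Measurable.tsum
          intro k
          exact ((wt_meas3 γ).mul ((hm k).pow_const q)).const_mul _

/-- the exponents of the two sums -/
lemma exps (q p δ : ℝ) (hqp : 0 < q * p - 1) (k : ℕ) :
    ENNReal.ofReal ((((2 : ℝ) ^ (-(q * δ * p / (2 * (q * p - 1))))) ^ k) ^ (-(p - 1))) *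
      ENNReal.ofReal ((((2 : ℝ) ^ (-(q * δ * p / (2 * (q * p - 1))))) ^ k) ^ (-(q - 1))) ^ p *
      ENNReal.ofReal (((2 : ℝ) ^ k) ^ (-(q * δ))) ^ p =
    ENNReal.ofReal (((2 : ℝ) ^ (-(q * δ * p / 2))) ^ k) := by
  have h2 : (0 : ℝ) < 2 := by norm_num
  rw [ENNReal.ofReal_rpow_of_pos (by positivity), ENNReal.ofReal_rpow_of_pos (by positivity),
    ← ENNReal.ofReal_mul (by positivity), ← ENNReal.ofReal_mul (by positivity)]
  congr 1
  rw [← Real.rpow_natCast ((2 : ℝ) ^ (-(q * δ * p / (2 * (q * p - 1))))) k,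
    ← Real.rpow_natCast (2 : ℝ) k, ← Real.rpow_natCast ((2 : ℝ) ^ (-(q * δ * p / 2))) k]
  simp only [← Real.rpow_mul h2.le]
  rw [← Real.rpow_add h2, ← Real.rpow_add h2]
  congr 1
  have : q * p - 1 ≠ 0 := hqp.ne'
  field_simp
  ring

/-- **The weighted mixed norm estimate.** -/
theorem strong (α γ p q A L : ℝ) (hA : 0 ≤ A) (hα1 : α ≤ 1) (hγ0 : 0 ≤ γ) (hp : 1 < p)
    (hpα : p * (1 + γ) < 1 + α) (hq : 2 + 2 / p < q) (hL : 1 ≤ L) :
    ∃ K : ℝ≥0∞, K ≠ ⊤ ∧ ∀ μ : Measure ℝ, Fro μ A α →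
      ∀ f : ℝ × ℝ → ℂ, S2 f →
      ∫⁻ l in Icc 1 L, JJ γ q f l ^ p ∂μ ≤ K * (∫⁻ x, ‖f x‖ₑ ^ q) ^ p := by
  have hp0 : 0 < p := by linarith
  have h2p : 0 < 2 / p := by positivity
  have hq2 : 2 < q := by linarith
  obtain ⟨K0, hK0, H⟩ := levelp α γ p q A L hA hα1 hγ0 hp hpα hq hL
  set δ : ℝ := q - (2 + 2 / p) with hδ
  have hδ0 : 0 < δ := by linarith
  have hqp : 0 < q * p - 1 := by nlinarith
  have hqδp : 0 < q * δ * p := by positivity
  set ρ : ℝ := (2 : ℝ) ^ (-(q * δ * p / (2 * (q * p - 1)))) with hρ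
  have hρ0 : 0 < ρ := by positivity
  have hρ1 : ρ < 1 := by
    apply Real.rpow_lt_one_of_one_lt_of_neg (by norm_num)
    rw [neg_lt_zero]
    positivity
  set σ : ℝ := (2 : ℝ) ^ (-(q * δ * p / 2)) with hσ
  have hσ0 : 0 < σ := by positivity
  have hσ1 : σ < 1 := by
    apply Real.rpow_lt_one_of_one_lt_of_neg (by norm_num)
    rw [neg_lt_zero]
    positivity
  set R : ℝ≥0∞ := ∑' k : ℕ, ENNReal.ofReal (ρ ^ k) with hR
  have hRt : R ≠ ⊤ := geo_ne ρ hρ0 hρ1
  set Sg : ℝ≥0∞ := ∑' k : ℕ, ENNReal.ofReal (σ ^ k) with hSg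
  have hSt : Sg ≠ ⊤ := geo_ne σ hσ0 hσ1
  set V : ℝ := 4 * 2 ^ q with hV
  have hV0 : 0 < V := by positivity
  set K1 : ℝ≥0∞ := (R ^ (q - 1)) ^ p * R ^ (p - 1) *
    (K0 * ENNReal.ofReal (V ^ (1 + δ)) ^ p * Sg) with hK1
  have hK1t : K1 ≠ ⊤ := by
    refine ENNReal.mul_ne_top (ENNReal.mul_ne_top ?_ ?_) (ENNReal.mul_ne_top
      (ENNReal.mul_ne_top hK0 ?_) hSt)
    · exact ENNReal.rpow_ne_top_of_nonneg hp0.le
        (ENNReal.rpow_ne_top_of_nonneg (by linarith) hRt)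
    · exact ENNReal.rpow_ne_top_of_nonneg (by linarith) hRt
    · exact ENNReal.rpow_ne_top_of_nonneg hp0.le ENNReal.ofReal_ne_top
  refine ⟨K1 + 1, ENNReal.add_ne_top.2 ⟨hK1t, ENNReal.one_ne_top⟩, ?_⟩
  intro μ hμ f hf
  set N : ℝ≥0∞ := ∫⁻ x, ‖f x‖ₑ ^ q with hN
  rcases eq_or_ne N ⊤ with hNt | hNt
  · rw [hNt, ENNReal.top_rpow_of_pos hp0, ENNReal.mul_top (by simp)]
    exact le_top
  rcases eq_or_ne N 0 with hN0 | hN0
  · -- the function vanishes almost everywhere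
    have hz : ∀ l : ℝ, 1 ≤ l → JJ γ q f l = 0 := by
      intro l hl
      have h1 : ∫⁻ x : ℝ × ℝ, ‖f (x.1, l * x.2)‖ₑ ^ q = 0 :=
        le_antisymm ((dil_lint (fun x => ‖f x‖ₑ ^ q) (hf.meas.enorm.pow_const q) l hl).trans
          (le_of_eq hN0)) (zero_le)
      have hmm : Measurable fun x : ℝ × ℝ => f (x.1, l * x.2) := hf.meas.comp (by fun_prop)
      rw [lintegral_eq_zero_iff (hmm.enorm.pow_const q)] at h1
      have h2 : ∀ ξ, ext (dil l f) ξ = 0 := by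
        intro ξ
        unfold H147R3.PE.ext
        apply integral_eq_zero_of_ae
        filter_upwards [h1] with x hx
        have h3 : ‖f (x.1, l * x.2)‖ₑ = 0 := by
          have := hx
          simp only [Pi.zero_apply] at this
          exact (ENNReal.rpow_eq_zero_iff_of_pos (by linarith)).1 this
        have h4 : f (x.1, l * x.2) = 0 := by simpa using h3
        unfold dil
        simp [h4]
      unfold JJ
      have h6 : ∀ ξ : ℝ × ℝ × ℝ, wt γ ξ.2.2 * ‖H147R3.PE.ext (dil l f) ξ‖ₑ ^ q = 0 := by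
        intro ξ
        rw [h2, enorm_zero, ENNReal.zero_rpow_of_pos (by linarith), mul_zero]
      simp only [h6, lintegral_zero]
    have h5 : ∫⁻ l in Icc 1 L, JJ γ q f l ^ p ∂μ = ∫⁻ _l in Icc 1 L, 0 ∂μ := by
      apply setLIntegral_congr_fun measurableSet_Icc
      intro l hl
      simp only
      rw [hz l hl.1, ENNReal.zero_rpow_of_pos hp0]
    rw [h5]
    simp
  -- the main case
  set s : ℝ := N.toReal ^ (1 / q) with hs
  have hNr : 0 < N.toReal := ENNReal.toReal_pos hN0 hNt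
  have hs0 : 0 < s := by positivity
  have hsq : ENNReal.ofReal (s ^ q) = N := by
    rw [hs, ← Real.rpow_mul hNr.le]
    have : 1 / q * q = 1 := by
      have : q ≠ 0 := by linarith
      field_simp
    rw [this, Real.rpow_one, ENNReal.ofReal_toReal hNt]
  have hint : ∫⁻ x, ‖f x‖ₑ ≠ ⊤ := by
    have h1 : ∫⁻ x, ‖f x‖ₑ ≤ ∫⁻ x, (QQ.indicator (fun _ => (1 : ℝ≥0∞)) x + ‖f x‖ₑ ^ q) := by
      apply lintegral_mono
      intro x
      simp only
      by_cases hx : x ∈ QQ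
      · rw [indicator_of_mem hx]
        rcases le_or_gt (‖f x‖ₑ) 1 with h | h
        · exact h.trans le_self_add
        · refine le_trans ?_ le_add_self
          calc ‖f x‖ₑ = ‖f x‖ₑ ^ (1 : ℝ) := (ENNReal.rpow_one _).symm
            _ ≤ ‖f x‖ₑ ^ q := ENNReal.rpow_le_rpow_of_exponent_le h.le (by linarith)
      · rw [hf.zero x hx]
        simp
    rw [lintegral_add_left (measurable_const.indicator QQ_meas), lintegral_indicator QQ_meas,
      lintegral_const, Measure.restrict_apply_univ, QQ_vol] at h1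
    refine ne_top_of_le_ne_top ?_ h1
    rw [← hN]
    exact ENNReal.add_ne_top.2 ⟨by norm_num, hNt⟩
  set c : ℕ → ℝ≥0∞ := fun k => ENNReal.ofReal ((ρ ^ k) ^ (-(q - 1))) with hc
  set d : ℕ → ℝ≥0∞ := fun k => ENNReal.ofReal ((ρ ^ k) ^ (-(p - 1))) with hd
  have hJm : ∀ k, Measurable (JJ γ q (pc f s k)) := fun k => JJ_meas γ q (pc_BS2 hf s hs0 k).meas
  have hlev : ∀ k, ∫⁻ l in Icc 1 L, JJ γ q (pc f s k) l ^ p ∂μ ≤
      K0 * (N ^ p * ENNReal.ofReal (V ^ (1 + δ)) ^ p *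
        ENNReal.ofReal (((2 : ℝ) ^ k) ^ (-(q * δ))) ^ p) := by
    intro k
    have h1 := H μ hμ ((2 : ℝ) ^ k * s) (pc f s k) (pc_BS2 hf s hs0 k) (EE f s k)
      (EE_meas hf s k) (fun x hx => by
        unfold pc
        rw [indicator_of_notMem hx]) (EE_vol0 f s k)
    refine h1.trans (mul_le_mul' le_rfl ?_)
    rw [← ENNReal.mul_rpow_of_nonneg _ _ hp0.le, ← ENNReal.mul_rpow_of_nonneg _ _ hp0.le]
    apply ENNReal.rpow_le_rpow _ hp0.le
    have h2 := vol_piece hf s hs0 q (by linarith) (by rw [hsq]) k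
    have h3 := ENNReal.rpow_le_rpow h2 (by linarith : 0 ≤ 1 + δ)
    refine (mul_le_mul' le_rfl h3).trans (le_of_eq ?_)
    rw [ENNReal.ofReal_rpow_of_pos (by positivity), ENNReal.ofReal_rpow_of_pos (by positivity),
      ← ENNReal.ofReal_mul (by positivity), ← hsq, ← ENNReal.ofReal_mul (by positivity),
      ← ENNReal.ofReal_mul (by positivity)]
    congr 1
    rw [Real.mul_rpow (by positivity) hs0.le, Real.mul_rpow (by positivity) (by positivity),
      ← Real.rpow_mul (by positivity) (-q) (1 + δ)]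
    have h4 : ((2 : ℝ) ^ k) ^ (-(q * δ)) = ((2 : ℝ) ^ k) ^ q * ((2 : ℝ) ^ k) ^ (-q * (1 + δ)) := by
      rw [← Real.rpow_add (by positivity)]
      congr 1
      ring
    rw [h4]
    ring
  calc ∫⁻ l in Icc 1 L, JJ γ q f l ^ p ∂μ
      ≤ ∫⁻ l in Icc 1 L, (R ^ (q - 1)) ^ p * (R ^ (p - 1) *
          ∑' k : ℕ, d k * (c k * JJ γ q (pc f s k) l) ^ p) ∂μ := by
        apply setLIntegral_mono' measurableSet_Icc
        intro l hl
        have h1 := ENNReal.rpow_le_rpow (JJ_split γ q ρ (by linarith) hρ0 hf hint s hs0 l hl.1)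
          hp0.le
        rw [ENNReal.mul_rpow_of_nonneg _ _ hp0.le] at h1
        exact h1.trans (mul_le_mul' le_rfl
          (wsum (fun k => c k * JJ γ q (pc f s k) l) ρ hρ0 p hp))
    _ = (R ^ (q - 1)) ^ p * (R ^ (p - 1) *
          ∑' k : ℕ, d k * (c k ^ p * ∫⁻ l in Icc 1 L, JJ γ q (pc f s k) l ^ p ∂μ)) := by
        have hmm : ∀ k, Measurable fun l => (c k * JJ γ q (pc f s k) l) ^ p := fun k =>
          ((hJm k).const_mul _).pow_const p
        rw [lintegral_const_mul, lintegral_const_mul, lintegral_tsum]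
        · congr 3
          funext k
          rw [lintegral_const_mul _ (hmm k)]
          congr 1
          rw [← lintegral_const_mul _ ((hJm k).pow_const p)]
          congr 1
          funext l
          rw [ENNReal.mul_rpow_of_nonneg _ _ hp0.le]
        · intro k
          exact ((hmm k).const_mul _).aemeasurable
        · exact Measurable.tsum fun k => (hmm k).const_mul _
        · exact (Measurable.tsum fun k => (hmm k).const_mul _).const_mul _
    _ ≤ (R ^ (q - 1)) ^ p * (R ^ (p - 1) *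
          ∑' k : ℕ, d k * (c k ^ p * (K0 * (N ^ p * ENNReal.ofReal (V ^ (1 + δ)) ^ p *
        ENNReal.ofReal (((2 : ℝ) ^ k) ^ (-(q * δ))) ^ p)))) := by
        refine mul_le_mul' le_rfl (mul_le_mul' le_rfl (ENNReal.tsum_le_tsum fun k => ?_))
        exact mul_le_mul' le_rfl (mul_le_mul' le_rfl (hlev k))
    _ = K1 * N ^ p := by
        have h1 : ∀ k : ℕ, d k * (c k ^ p * (K0 * (N ^ p * ENNReal.ofReal (V ^ (1 + δ)) ^ p *
            ENNReal.ofReal (((2 : ℝ) ^ k) ^ (-(q * δ))) ^ p))) =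
            (K0 * ENNReal.ofReal (V ^ (1 + δ)) ^ p * N ^ p) * ENNReal.ofReal (σ ^ k) := by
          intro k
          have h2 := exps q p δ hqp k
          rw [← hρ, ← hσ] at h2
          rw [← h2]
          ring
        simp only [h1]
        rw [ENNReal.tsum_mul_left, ← hSg, hK1]
        ring
    _ ≤ (K1 + 1) * N ^ p := mul_le_mul' le_self_add le_rfl

end Pool.Agent.Q162.PE
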